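import Pool.Agent.C74d57.Base

set_option autoImplicit false

open Polynomial

namespace Pool.Agent.Results.MP_c74d57_an.Main

/-- Causal sequences of real `p × q` matrices. -/
abbrev Sig (p q : ℕ) : Type := ℕ → Matrix (Fin p) (Fin q) ℝ

/-- Membership in `ℓ₁^{p × q}`. -/
def IsL1 {p q : ℕ} (X : Sig p q) : Prop := ∀ i j, Summable (fun k => |X k i j|)

/-- Convolution product: `(XY)(k) = ∑_{t ≤ k} X(t) Y(k - t)`. -/
def conv {p q r : ℕ} (X : Sig p q) (Y : Sig q r) : Sig p r :=
  fun k => ∑ t ∈ Finset.range (k + 1), X t * Y (k - t)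

/-- The norm `max_i ∑_j ∑_k |X_ij(k)|`. -/
noncomputable def nrm {p q : ℕ} (X : Sig p q) : ℝ := ⨆ i, ∑ j, ∑' k, |X k i j|

/-- The `λ`-transform of the `(i, j)` entry, as a power series in `λ`. -/
noncomputable def tr {p q : ℕ} (X : Sig p q) (i : Fin p) (j : Fin q) : PowerSeries ℝ :=
  PowerSeries.mk (fun k => X k i j)

/-- `X` is rational: every entry of the `λ`-transform is a quotient of two polynomials. -/
def IsRational {p q : ℕ} (X : Sig p q) : Prop :=
  ∀ i j, ∃ P D : ℝ[X], D ≠ 0 ∧ (D : PowerSeries ℝ) * tr X i j = (P : PowerSeries ℝ)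

/-- Full row normal rank: the rows of the transform are linearly independent over the rational
functions (after clearing denominators: over the polynomials). -/
def FullRowRank {p q : ℕ} (X : Sig p q) : Prop :=
  ∀ c : Fin p → ℝ[X], (∀ j, ∑ i, (c i : PowerSeries ℝ) * tr X i j = 0) → c = 0

/-- Full column normal rank: the columns of the transform are linearly independent over the
rational functions (after clearing denominators: over the polynomials). -/
def FullColRank {p q : ℕ} (X : Sig p q) : Prop :=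
  ∀ c : Fin q → ℝ[X], (∀ i, ∑ j, (c j : PowerSeries ℝ) * tr X i j = 0) → c = 0

/-- `Q ∈ ℓ₁` attains the infimum of `‖H - U Q V‖₁` over `ℓ₁`. -/
def IsOptimal {nz nw nu ny : ℕ} (H : Sig nz nw) (U : Sig nz nu) (V : Sig ny nw) (Q : Sig nu ny) :
    Prop :=
  IsL1 Q ∧ ∀ Q' : Sig nu ny, IsL1 Q' →
    nrm (H - conv (conv U Q) V) ≤ nrm (H - conv (conv U Q') V)

/-! ### the instance -/

noncomputable def h (k : ℕ) : ℝ := (1 / 2 : ℝ) ^ k * Real.cos k

noncomputable def r (k : ℕ) : ℝ := (1 / 2 : ℝ) ^ k

noncomputable def HH : Sig 1 3 := fun k => !![h k, 0, r k]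

def UU : Sig 1 1 := fun k => if k = 0 then !![1] else 0

def VV : Sig 1 3 := fun k => if k = 0 then !![1, 1, 1] else 0

open Pool.Agent.C74d57 in
noncomputable def QQ : Sig 1 1 := fun k => !![b k]

lemma conv_UU {q : ℕ} (Q : Sig 1 q) : conv UU Q = Q := by
  funext k
  unfold conv UU
  rw [Finset.sum_range_succ']
  have : ∀ t ∈ Finset.range k, (if t + 1 = 0 then (!![1] : Matrix (Fin 1) (Fin 1) ℝ) else 0) * Q (k - (t + 1)) = 0 := by
    intro t _
    simp
  rw [Finset.sum_eq_zero this]
  have h1 : (!![1] : Matrix (Fin 1) (Fin 1) ℝ) = 1 := by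
    ext i j; fin_cases i; fin_cases j; simp
  simp [h1]

lemma conv_VV (Q : Sig 1 1) : conv Q VV = fun k => !![Q k 0 0, Q k 0 0, Q k 0 0] := by
  funext k
  unfold conv VV
  rw [Finset.sum_range_succ]
  have : ∀ t ∈ Finset.range k, Q t * (if k - t = 0 then (!![1, 1, 1] : Matrix (Fin 1) (Fin 3) ℝ) else 0) = 0 := by
    intro t ht
    rw [if_neg, Matrix.mul_zero]
    have := Finset.mem_range.mp ht
    omega
  rw [Finset.sum_eq_zero this]
  ext i j
  fin_cases i; fin_cases j <;> simp [Matrix.mul_apply]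

lemma abs_h_le (k : ℕ) : |h k| ≤ r k := by
  unfold h r
  rw [abs_mul, abs_of_nonneg (by positivity)]
  exact mul_le_of_le_one_right (by positivity) (Real.abs_cos_le_one _)

lemma r_nonneg (k : ℕ) : 0 ≤ r k := by unfold r; positivity

lemma r_summable : Summable r := by
  unfold r
  exact summable_geometric_of_lt_one (by norm_num) (by norm_num)

lemma h_summable : Summable (fun k => |h k|) :=
  Summable.of_nonneg_of_le (fun _ => abs_nonneg _) abs_h_le r_summable

open Pool.Agent.C74d57 in
lemma b_bounds (k : ℕ) : 0 ≤ b k ∧ h k ≤ b k ∧ b k ≤ r k := by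
  refine ⟨le_max_right _ _, le_max_left _ _, max_le ?_ (r_nonneg k)⟩
  exact (le_abs_self _).trans (abs_h_le k)

open Pool.Agent.C74d57 in
lemma b_summable : Summable (fun k => |b k|) :=
  Summable.of_nonneg_of_le (fun _ => abs_nonneg _)
    (fun k => by rw [abs_of_nonneg (b_bounds k).1]; exact (b_bounds k).2.2) r_summable

/-- cost of `Q` -/
lemma cost (Q : Sig 1 1) : nrm (HH - conv (conv UU Q) VV) =
    (∑' k, |h k - Q k 0 0|) + (∑' k, |0 - Q k 0 0|) + ∑' k, |r k - Q k 0 0| := by
  unfold nrm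
  rw [ciSup_unique, conv_UU, conv_VV]
  simp [Fin.sum_univ_three, HH]

open Pool.Agent.C74d57 in
lemma pointwise (k : ℕ) (q : ℝ) :
    (r k - min (h k) 0) + |b k - q| ≤ |h k - q| + |0 - q| + |r k - q| := by
  have h1 := b_bounds k
  have h2 := abs_h_le k
  have hb : b k = max (h k) 0 := rfl
  rcases le_total (h k) 0 with hk | hk
  · rw [min_eq_left hk]
    rw [hb, max_eq_right hk]
    have a1 := neg_abs_le (h k - q)
    have a2 := le_abs_self (r k - q)
    linarith
  · rw [min_eq_right hk]
    rw [hb, max_eq_left hk]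
    have a1 := neg_abs_le (0 - q)
    have a2 := le_abs_self (r k - q)
    linarith

open Pool.Agent.C74d57 in
lemma pointwise_eq (k : ℕ) :
    |h k - b k| + |0 - b k| + |r k - b k| = r k - min (h k) 0 := by
  obtain ⟨h1, h2, h3⟩ := b_bounds k
  have hb : b k = max (h k) 0 := rfl
  rw [abs_of_nonpos (by linarith), abs_of_nonpos (by linarith), abs_of_nonneg (by linarith)]
  rcases le_total (h k) 0 with hk | hk
  · rw [min_eq_left hk, hb, max_eq_right hk]; ring
  · rw [min_eq_right hk, hb, max_eq_left hk]; ring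

lemma summ_sub (a q : ℕ → ℝ) (ha : Summable (fun k => |a k|)) (hq : Summable (fun k => |q k|)) :
    Summable (fun k => |a k - q k|) :=
  Summable.of_nonneg_of_le (fun _ => abs_nonneg _) (fun k => abs_sub _ _) (ha.add hq)

lemma c_summable : Summable (fun k => r k - min (h k) 0) := by
  refine r_summable.sub ?_
  refine Summable.of_abs (Summable.of_nonneg_of_le (fun _ => abs_nonneg _) (fun k => ?_) h_summable)
  rcases le_total (h k) 0 with hk | hk
  · rw [min_eq_left hk]
  · rw [min_eq_right hk, abs_zero]; exact abs_nonneg _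

open Pool.Agent.C74d57 in
lemma cost_QQ : nrm (HH - conv (conv UU QQ) VV) = ∑' k, (r k - min (h k) 0) := by
  rw [cost]
  have e : ∀ k, QQ k 0 0 = b k := fun k => rfl
  simp only [e]
  have s1 := summ_sub h b h_summable b_summable
  have s2 := summ_sub (fun _ => 0) b (by simpa using summable_zero) b_summable
  have s3 := summ_sub r b (by simpa [abs_of_nonneg (r_nonneg _)] using r_summable) b_summable
  rw [← s1.tsum_add s2, ← (s1.add s2).tsum_add s3]
  exact tsum_congr pointwise_eq

open Pool.Agent.C74d57 in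
lemma cost_ge (Q : Sig 1 1) (hQ : IsL1 Q) :
    (∑' k, (r k - min (h k) 0)) + ∑' k, |b k - Q k 0 0| ≤ nrm (HH - conv (conv UU Q) VV) := by
  rw [cost]
  have hq := hQ 0 0
  have s1 := summ_sub h (fun k => Q k 0 0) h_summable hq
  have s2 := summ_sub (fun _ => 0) (fun k => Q k 0 0) (by simpa using summable_zero) hq
  have s3 := summ_sub r (fun k => Q k 0 0) (by simpa [abs_of_nonneg (r_nonneg _)] using r_summable) hq
  have s4 := summ_sub b (fun k => Q k 0 0) b_summable hq
  rw [← s1.tsum_add s2, ← (s1.add s2).tsum_add s3, ← c_summable.tsum_add s4]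
  exact (c_summable.add s4).tsum_le_tsum (fun k => pointwise k _) ((s1.add s2).add s3)

open Pool.Agent.C74d57 in
lemma optimal_unique (Q : Sig 1 1) (hQ : IsOptimal HH UU VV Q) : ∀ k, Q k 0 0 = b k := by
  have hQQ : IsL1 QQ := by
    intro i j
    fin_cases i; fin_cases j
    exact b_summable
  have h1 := hQ.2 QQ hQQ
  rw [cost_QQ] at h1
  have h2 := cost_ge Q hQ.1
  have s4 := summ_sub b (fun k => Q k 0 0) b_summable (hQ.1 0 0)
  have h3 : ∑' k, |b k - Q k 0 0| ≤ 0 := by linarith
  have h4 : ∑' k, |b k - Q k 0 0| = 0 := le_antisymm h3 (tsum_nonneg fun _ => abs_nonneg _)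
  have h5 := (hasSum_zero_iff_of_nonneg (fun k => abs_nonneg (b k - Q k 0 0))).mp (h4 ▸ s4.hasSum)
  intro k
  have := congrFun h5 k
  simp only [Pi.zero_apply, abs_eq_zero] at this
  linarith

lemma rat_r : ∃ P D : ℝ[X], D ≠ 0 ∧ (D : PowerSeries ℝ) * PowerSeries.mk r = (P : PowerSeries ℝ) := by
  refine ⟨1, 1 - C (1 / 2) * X, ?_, ?_⟩
  · intro h0
    have := congrArg (fun p => Polynomial.coeff p 0) h0
    simp at this
  · ext k
    rw [Polynomial.coe_sub, Polynomial.coe_mul, Polynomial.coe_C, Polynomial.coe_X, Polynomial.coe_one,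
      sub_mul, one_mul, map_sub, mul_assoc, PowerSeries.coeff_C_mul]
    cases k with
    | zero => simp [r]
    | succ k =>
      rw [PowerSeries.coeff_succ_X_mul, PowerSeries.coeff_mk, PowerSeries.coeff_mk, PowerSeries.coeff_one]
      simp only [r]
      rw [if_neg (by omega), pow_succ]
      ring

lemma rat_h : ∃ P D : ℝ[X], D ≠ 0 ∧ (D : PowerSeries ℝ) * PowerSeries.mk h = (P : PowerSeries ℝ) := by
  refine ⟨1 - C (Real.cos 1 / 2) * X, 1 - C (Real.cos 1) * X + C (1 / 4) * X ^ 2, ?_, ?_⟩
  · intro h0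
    have := congrArg (fun p => Polynomial.coeff p 0) h0
    simp at this
  · ext k
    simp only [Polynomial.coe_sub, Polynomial.coe_add, Polynomial.coe_mul, Polynomial.coe_C,
      Polynomial.coe_X, Polynomial.coe_one, Polynomial.coe_pow, pow_two]
    rw [add_mul, sub_mul, one_mul, map_add, map_sub, mul_assoc, mul_assoc, mul_assoc,
      PowerSeries.coeff_C_mul, PowerSeries.coeff_C_mul, map_sub, PowerSeries.coeff_C_mul]
    match k with
    | 0 => simp [h]
    | 1 =>
      rw [PowerSeries.coeff_succ_X_mul, PowerSeries.coeff_succ_X_mul]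
      simp [h, PowerSeries.coeff_one]
      ring
    | k + 2 =>
      rw [PowerSeries.coeff_succ_X_mul, PowerSeries.coeff_succ_X_mul, PowerSeries.coeff_succ_X_mul,
        PowerSeries.coeff_mk, PowerSeries.coeff_mk, PowerSeries.coeff_mk, PowerSeries.coeff_one,
        PowerSeries.coeff_X, if_neg (by omega), if_neg (by omega)]
      simp only [h]
      have e1 : Real.cos ((k + 2 : ℕ) : ℝ) = 2 * Real.cos 1 * Real.cos ((k + 1 : ℕ) : ℝ) - Real.cos k := by
        have h1 := Real.cos_add ((k + 1 : ℕ) : ℝ) 1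
        have h2 := Real.cos_sub ((k + 1 : ℕ) : ℝ) 1
        have e2 : ((k + 1 : ℕ) : ℝ) + 1 = ((k + 2 : ℕ) : ℝ) := by push_cast; ring
        have e3 : ((k + 1 : ℕ) : ℝ) - 1 = (k : ℝ) := by push_cast; ring
        rw [e2] at h1
        rw [e3] at h2
        linarith
      rw [e1]
      ring

/-- The negation of Q1: there are rational `H, U, V` in `ℓ₁` forming a multi-block instance for
which the minimum is attained, but no optimal `Q` is rational. -/
theorem result : ∃ (nz nw nu ny : ℕ) (H : Sig nz nw) (U : Sig nz nu) (V : Sig ny nw),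
    1 ≤ nz ∧ 1 ≤ nw ∧ 1 ≤ nu ∧ 1 ≤ ny ∧
    IsL1 H ∧ IsL1 U ∧ IsL1 V ∧ IsRational H ∧ IsRational U ∧ IsRational V ∧
    ¬ (FullRowRank U ∧ FullColRank V) ∧
    (∃ Q, IsOptimal H U V Q) ∧ ∀ Q, IsOptimal H U V Q → ¬ IsRational Q := by
  refine ⟨1, 3, 1, 1, HH, UU, VV, le_rfl, by norm_num, le_rfl, le_rfl, ?_, ?_, ?_, ?_, ?_, ?_, ?_, ?_, ?_⟩
  · intro i j
    fin_cases i; fin_cases j
    · exact h_summable
    · simpa [HH] using summable_zero
    · have : (fun k => |HH k 0 2|) = r := by
        funext k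
        exact abs_of_nonneg (r_nonneg k)
      exact this ▸ r_summable
  · intro i j
    refine summable_of_ne_finset_zero (s := {0}) fun k hk => ?_
    rw [Finset.mem_singleton] at hk
    simp [UU, hk]
  · intro i j
    refine summable_of_ne_finset_zero (s := {0}) fun k hk => ?_
    rw [Finset.mem_singleton] at hk
    simp [VV, hk]
  · intro i j
    fin_cases i; fin_cases j
    · exact rat_h
    · refine ⟨0, 1, one_ne_zero, ?_⟩
      ext k
      simp [tr, HH]
    · exact rat_r
  · intro i j
    refine ⟨1, 1, one_ne_zero, ?_⟩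
    ext k
    fin_cases i; fin_cases j
    by_cases hk : k = 0 <;> simp [tr, UU, hk, PowerSeries.coeff_one]
  · intro i j
    refine ⟨1, 1, one_ne_zero, ?_⟩
    ext k
    fin_cases i
    by_cases hk : k = 0 <;> fin_cases j <;> simp [tr, VV, hk, PowerSeries.coeff_one]
  · rintro ⟨_, hV⟩
    have := hV ![1, -1, 0] (by
      intro i
      fin_cases i
      have e0 : tr VV 0 0 = 1 := by
        ext k
        by_cases hk : k = 0 <;> simp [tr, VV, hk, PowerSeries.coeff_one]
      have e1 : tr VV 0 1 = 1 := by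
        ext k
        by_cases hk : k = 0 <;> simp [tr, VV, hk, PowerSeries.coeff_one]
      simp [Fin.sum_univ_three, e0, e1])
    have h0 := congrFun this 0
    simp at h0
  · refine ⟨QQ, ?_, ?_⟩
    · intro i j
      fin_cases i; fin_cases j
      exact b_summable
    · intro Q' hQ'
      rw [cost_QQ]
      have := cost_ge Q' hQ'
      have h0 : 0 ≤ ∑' k, |Pool.Agent.C74d57.b k - Q' k 0 0| := tsum_nonneg fun _ => abs_nonneg _
      linarith
  · intro Q hQ hrat
    have hu := optimal_unique Q hQ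
    obtain ⟨P, D, hD, hPD⟩ := hrat 0 0
    apply Pool.Agent.C74d57.not_rational P D hD
    have : tr Q 0 0 = PowerSeries.mk Pool.Agent.C74d57.b := by
      unfold tr
      congr 1
      funext k
      exact hu k
    rw [← this, hPD]

end Pool.Agent.Results.MP_c74d57_an.Main
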